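import Pool.Agent.P.MP_88303f_co.Final

namespace Pool.Agent.Results.MP_88303f_co.ExactValue

open Pool.Agent.P.MP_88303f_co

theorem result (v e : ℕ) (hv : 0 < v) (he : e ≤ v.choose 2) :
    IsGreatest {c : ℕ | ∃ G : SimpleGraph (Fin v), G.edgeSet.ncard = e ∧
      {S : Set (Fin v) | Maximal G.IsIndepSet S}.ncard = c} (muFormula v e) :=
  main v e hv he

end Pool.Agent.Results.MP_88303f_co.ExactValue
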