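import Pool.Agent.P.MP_88303f_co.SzLow

namespace Pool.Agent.Results.MP_88303f_co.SizedExact

open Pool.Agent.P.MP_88303f_co

theorem result (v e k n q : ℕ) (hk : 2 ≤ k) (hkn : k ≤ n) (hn : n < v) (hq : q ≤ n - n / k)
    (he : e + n.choose 2 + q = v.choose 2 + inner n k) :
    IsGreatest {c : ℕ | ∃ G : SimpleGraph (Fin v), G.edgeSet.ncard = e ∧
      {S : Set (Fin v) | Maximal G.IsIndepSet S ∧ S.ncard = k}.ncard = c}
      (bal n k + bal q (k - 1)) :=
  Sz.sized v e k n q hk hkn hn hq he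

end Pool.Agent.Results.MP_88303f_co.SizedExact
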